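import Pool.Agent.W_be22fd_h27.GridDef

/-!
# Initial and final order of the grid
-/

namespace Pool.Agent.W_be22fd_h97

open Pool.Agent.W_be22fd_h27

variable (B : Block) (X : ℕ)

theorem hG_ini (i : ℕ) (t : B.τ) (p q : Wire (GW B X) (X * X + 1))
    (h : rkG B X p < rkG B X q) : hG B X 0 i t q < hG B X 0 i t p := by
  have hs : ∀ u, -B.A ≤ B.slope u ∧ B.slope u ≤ B.A := fun u => abs_le.1 (B.slope_le u)
  have hA := B.A_nonneg
  have hold : ∀ u o ho, hG B X 0 i t (.inn (.old u o ho)) =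
      H4 (-16) (-B.slope u) o (B.h B.ini (.inn u)) := by
    intro u o ho
    simp [hG, hOld]
  have hmv : ∀ κ k, hG B X 0 i t (.inn (.mv κ k)) =
      H4 κ.zb (κ.ab k) κ.bb (B.h B.ini κ.wire) := by
    intro κ k
    simp [hG, hMv]
  have hL : hG B X 0 i t .L = H4 (-10) 0 0 (B.h B.ini .L) := by simp [hG]
  have hC : hG B X 0 i t .C = H4 (-22) 0 0 (B.h B.ini .L) := by simp [hG]
  have hS : ∀ m, hG B X 0 i t (.S m) = H4 (-4) m 0 (B.h B.ini .L) := by
    intro m; simp [hG]
  have hR : ∀ m, hG B X 0 i t (.R m) = H4 (-28) (-(m : ℤ)) 0 (B.h B.ini .L) := by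
    intro m; simp [hG]
  rcases p with (⟨u, o, ho⟩ | ⟨κ, k⟩) | _ | _ | m | m <;>
  rcases q with (⟨u', o', ho'⟩ | ⟨κ', k'⟩) | _ | _ | m' | m' <;>
  simp only [hL, hC, hS, hR, hold, hmv, H4_lt] <;>
  simp only [rkG, rk, slopeG] at h
  · right
    exact ⟨trivial, by left; linarith⟩
  · have := hs u
    have := k'.2
    cases κ' <;> simp only [MK.slp, MK.zb, MK.ab, MK.bb] at h ⊢ <;> omega
  · have := hs u; omega
  · have := hs u; omega
  · have := hs u; omega
  · have := hs u; omega
  · have := hs u'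
    have := k.2
    cases κ <;> simp only [MK.slp, MK.zb, MK.ab, MK.bb] at h ⊢ <;> omega
  · have := k.2
    have := k'.2
    cases κ <;> cases κ' <;> simp only [MK.slp, MK.zb, MK.ab, MK.bb] at h ⊢ <;>
      first | omega | (right; exact ⟨trivial, by left; omega⟩)
  · have := k.2
    cases κ <;> simp only [MK.slp, MK.zb, MK.ab, MK.bb] at h ⊢ <;> omega
  · have := k.2
    cases κ <;> simp only [MK.slp, MK.zb, MK.ab, MK.bb] at h ⊢ <;> omega
  · have := k.2
    cases κ <;> simp only [MK.slp, MK.zb, MK.ab, MK.bb] at h ⊢ <;> omega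
  · have := k.2
    cases κ <;> simp only [MK.slp, MK.zb, MK.ab, MK.bb] at h ⊢ <;> omega
  · have := hs u'; omega
  · have := k'.2
    cases κ' <;> simp only [MK.slp, MK.zb, MK.ab, MK.bb] at h ⊢ <;> omega
  · omega
  · omega
  · omega
  · omega
  · have := hs u'; omega
  · have := k'.2
    cases κ' <;> simp only [MK.slp, MK.zb, MK.ab, MK.bb] at h ⊢ <;> omega
  · omega
  · omega
  · omega
  · omega
  · have := hs u'; omega
  · have := k'.2
    cases κ' <;> simp only [MK.slp, MK.zb, MK.ab, MK.bb] at h ⊢ <;> omega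
  · omega
  · omega
  · omega
  · omega
  · have := hs u'; omega
  · have := k'.2
    cases κ' <;> simp only [MK.slp, MK.zb, MK.ab, MK.bb] at h ⊢ <;> omega
  · omega
  · omega
  · omega
  · omega

theorem hG_fin {M : ℕ} (hM : X * X + 2 ≤ M) (i : ℕ) (t : B.τ) (p q : Wire (GW B X) (X * X + 1))
    (h : rkG B X p < rkG B X q) : hG B X M i t p < hG B X M i t q := by
  have hs : ∀ u, -B.A ≤ B.slope u ∧ B.slope u ≤ B.A := fun u => abs_le.1 (B.slope_le u)
  have hA := B.A_nonneg
  have hold : ∀ u o ho, hG B X M i t (.inn (.old u o ho)) =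
      H4 (-16) (B.slope u) o (B.h B.fin (.inn u)) := by
    intro u o ho
    simp only [hG, hOld]
    rw [if_neg (by omega), if_neg (by omega)]
  have hmv : ∀ (κ : MK B.ns) (k : Fin (X * X)), hG B X M i t (.inn (.mv κ k)) =
      H4 κ.za (κ.aa k) κ.bb (B.h B.fin κ.wire) := by
    intro κ k
    have := k.2
    simp only [hG, hMv]
    rw [if_neg (by omega), if_neg (by omega)]
  have hL : hG B X M i t .L = H4 (-27) 0 0 (B.h B.ini .L) := by
    simp only [hG]; rw [if_neg (by omega)]
  have hC : hG B X M i t .C = H4 (-5) 0 0 (B.h B.ini .L) := by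
    simp only [hG]; rw [if_neg (by omega)]
  have hS : ∀ m, hG B X M i t (.S m) = H4 (-30) m 0 (B.h B.ini .L) := by
    intro m
    have := m.2
    simp only [hG]; rw [if_neg (by omega)]
  have hR : ∀ m, hG B X M i t (.R m) = H4 (-2) (-(m : ℤ)) 0 (B.h B.ini .L) := by
    intro m
    have := m.2
    simp only [hG]; rw [if_neg (by omega), if_neg (by omega)]
  rcases p with (⟨u, o, ho⟩ | ⟨κ, k⟩) | _ | _ | m | m <;>
  rcases q with (⟨u', o', ho'⟩ | ⟨κ', k'⟩) | _ | _ | m' | m' <;>
  simp only [hL, hC, hS, hR, hold, hmv, H4_lt] <;>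
  simp only [rkG, rk, slopeG] at h
  · right
    exact ⟨trivial, by left; linarith⟩
  · have := hs u
    have := k'.2
    cases κ' <;> simp only [MK.slp, MK.za, MK.aa, MK.bb] at h ⊢ <;> omega
  · have := hs u; omega
  · have := hs u; omega
  · have := hs u; omega
  · have := hs u; omega
  · have := hs u'
    have := k.2
    cases κ <;> simp only [MK.slp, MK.za, MK.aa, MK.bb] at h ⊢ <;> omega
  · have := k.2
    have := k'.2
    cases κ <;> cases κ' <;> simp only [MK.slp, MK.za, MK.aa, MK.bb] at h ⊢ <;>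
      first | omega | (right; exact ⟨trivial, by left; omega⟩)
  · have := k.2
    cases κ <;> simp only [MK.slp, MK.za, MK.aa, MK.bb] at h ⊢ <;> omega
  · have := k.2
    cases κ <;> simp only [MK.slp, MK.za, MK.aa, MK.bb] at h ⊢ <;> omega
  · have := k.2
    cases κ <;> simp only [MK.slp, MK.za, MK.aa, MK.bb] at h ⊢ <;> omega
  · have := k.2
    cases κ <;> simp only [MK.slp, MK.za, MK.aa, MK.bb] at h ⊢ <;> omega
  · have := hs u'; omega
  · have := k'.2
    cases κ' <;> simp only [MK.slp, MK.za, MK.aa, MK.bb] at h ⊢ <;> omega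
  · omega
  · omega
  · omega
  · omega
  · have := hs u'; omega
  · have := k'.2
    cases κ' <;> simp only [MK.slp, MK.za, MK.aa, MK.bb] at h ⊢ <;> omega
  · omega
  · omega
  · omega
  · omega
  · have := hs u'; omega
  · have := k'.2
    cases κ' <;> simp only [MK.slp, MK.za, MK.aa, MK.bb] at h ⊢ <;> omega
  · omega
  · omega
  · omega
  · omega
  · have := hs u'; omega
  · have := k'.2
    cases κ' <;> simp only [MK.slp, MK.za, MK.aa, MK.bb] at h ⊢ <;> omega
  · omega
  · omega
  · omega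
  · omega

end Pool.Agent.W_be22fd_h97
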