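import Pool.Agent.W_be22fd_h27.GridDef

/-!
# The heights of the grid are injective in every state
-/

namespace Pool.Agent.W_be22fd_h97

open Pool.Agent.W_be22fd_h27

theorem wire_inj {W : Type} {ns : ℕ} {κ κ' : MK ns}
    (h : (κ.wire : Wire W ns) = κ'.wire) : κ = κ' := by
  cases κ <;> cases κ' <;> simp_all [MK.wire]

theorem inn_ne_wire {W : Type} {ns : ℕ} (w : W) (κ : MK ns) :
    (Wire.inn w : Wire W ns) ≠ κ.wire := by
  cases κ <;> simp [MK.wire]

variable (B : Block) (X : ℕ)

theorem hOld_inj (M i : ℕ) (t : B.τ) {u u' : B.W} {o o' : ℤ}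
    (h : hOld B X M i t u o = hOld B X M i t u' o') : u = u' ∧ o = o' := by
  unfold hOld at h
  split_ifs at h with h1 h2
  · rw [H4_inj] at h
    obtain ⟨-, h2, h3, h4⟩ := h
    have := B.inj _ h4
    simp only [Wire.inn.injEq] at this
    exact ⟨this, h3⟩
  · rw [H4_inj] at h
    obtain ⟨-, h2, h3, h4⟩ := h
    rw [h2] at h4
    have := B.inj _ h4
    simp only [Wire.inn.injEq] at this
    subst this
    exact ⟨rfl, by omega⟩
  · rw [H4_inj] at h
    obtain ⟨-, h2, h3, h4⟩ := h
    have := B.inj _ h4
    simp only [Wire.inn.injEq] at this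
    exact ⟨this, h3⟩

/-- the zone of an old wire -/
theorem hOld_zone (M i : ℕ) (t : B.τ) (u : B.W) (o : ℤ) :
    ∃ a b c, hOld B X M i t u o = H4 (-16) a b c := by
  unfold hOld
  split_ifs <;> exact ⟨_, _, _, rfl⟩

theorem hOld_ne_hMv (M i : ℕ) (t : B.τ) (u : B.W) (o : ℤ) (κ : MK B.ns) (k : ℕ)
    (hk : k < X * X) : hOld B X M i t u o ≠ hMv B X M i t κ k := by
  intro h
  unfold hMv at h
  split_ifs at h with h1 h2
  · obtain ⟨a, b, c, h3⟩ := hOld_zone B X M i t u o
    rw [h3, H4_inj] at h
    have := h.1
    cases κ <;> simp [MK.zb] at this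
  · obtain ⟨rfl, rfl⟩ := h2
    unfold hOld at h
    rw [if_neg (by omega), if_pos (by omega), H4_inj] at h
    obtain ⟨-, h2, -, h4⟩ := h
    rw [h2] at h4
    unfold clk at h4
    rw [if_neg (lt_irrefl _), if_neg (lt_irrefl _), if_neg (by omega), if_pos rfl] at h4
    exact inn_ne_wire _ _ (B.inj _ h4)
  · obtain ⟨a, b, c, h3⟩ := hOld_zone B X M i t u o
    rw [h3, H4_inj] at h
    have := h.1
    cases κ <;> simp [MK.za] at this

theorem hMv_inj (M i : ℕ) (t : B.τ) {κ κ' : MK B.ns} {k k' : ℕ}
    (h : hMv B X M i t κ k = hMv B X M i t κ' k') : κ = κ' ∧ k = k' := by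
  unfold hMv at h
  split_ifs at h with h1 h2 h3 h4 h5 h6 h7 h8
  all_goals rw [H4_inj] at h
  all_goals obtain ⟨e1, e2, e3, e4⟩ := h
  · cases κ <;> cases κ' <;> simp_all [MK.zb, MK.ab, MK.bb, Fin.ext_iff]
  · cases κ <;> simp [MK.zb] at e1
  · cases κ <;> cases κ' <;> simp [MK.zb, MK.za] at e1
  · cases κ' <;> simp [MK.zb] at e1
  · exact ⟨wire_inj (B.inj _ e4), by omega⟩
  · cases κ' <;> simp [MK.za] at e1
  · cases κ <;> cases κ' <;> simp [MK.zb, MK.za] at e1
  · cases κ <;> simp [MK.za] at e1
  · cases κ <;> cases κ' <;> simp_all [MK.za, MK.aa, MK.bb, Fin.ext_iff]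

/-- the zone of a moving wire -/
theorem hMv_zone (M i : ℕ) (t : B.τ) (κ : MK B.ns) (k : ℕ) :
    ∃ z a b c, hMv B X M i t κ k = H4 z a b c ∧
      (z = -18 ∨ z = -14 ∨ z = -20 ∨ z = -12 ∨ z = -16 ∨ z = -8 ∨ z = -24 ∨ z = -6 ∨ z = -26) := by
  unfold hMv
  split_ifs
  · exact ⟨_, _, _, _, rfl, by cases κ <;> simp [MK.zb]⟩
  · exact ⟨_, _, _, _, rfl, by simp⟩
  · exact ⟨_, _, _, _, rfl, by cases κ <;> simp [MK.za]⟩

/-- the zone of an inner wire -/
theorem inn_zone (M i : ℕ) (t : B.τ) (w : GW B X) :
    ∃ z a b c, hG B X M i t (.inn w) = H4 z a b c ∧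
      (z = -18 ∨ z = -14 ∨ z = -20 ∨ z = -12 ∨ z = -16 ∨ z = -8 ∨ z = -24 ∨ z = -6 ∨ z = -26) := by
  cases w with
  | old u o ho =>
    obtain ⟨a, b, c, h⟩ := hOld_zone B X M i t u o
    exact ⟨_, a, b, c, h, by simp⟩
  | mv κ k => exact hMv_zone B X M i t κ k

theorem hG_injective (M i : ℕ) (t : B.τ) : Function.Injective (hG B X M i t) := by
  have key : ∀ (w : GW B X) (q : Wire (GW B X) (X * X + 1)), (∀ w', q ≠ .inn w') →
      hG B X M i t (.inn w) ≠ hG B X M i t q := by
    intro w q hq h
    obtain ⟨z, a, b, c, h1, h2⟩ := inn_zone B X M i t w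
    rw [h1] at h
    cases q with
    | inn w' => exact hq w' rfl
    | L =>
      simp only [hG] at h
      split_ifs at h <;> rw [H4_inj] at h <;> omega
    | C =>
      simp only [hG] at h
      split_ifs at h <;> rw [H4_inj] at h <;> omega
    | S m =>
      simp only [hG] at h
      split_ifs at h <;> rw [H4_inj] at h <;> omega
    | R m =>
      simp only [hG] at h
      split_ifs at h <;> rw [H4_inj] at h <;> omega
  intro p q h
  cases p with
  | inn w =>
    cases q with
    | inn w' =>
      cases w with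
      | old u o ho =>
        cases w' with
        | old u' o' ho' =>
          obtain ⟨rfl, rfl⟩ := hOld_inj B X M i t h
          rfl
        | mv κ k => exact absurd h (hOld_ne_hMv B X M i t u o κ k k.2)
      | mv κ k =>
        cases w' with
        | old u' o' ho' => exact absurd h.symm (hOld_ne_hMv B X M i t u' o' κ k k.2)
        | mv κ' k' =>
          obtain ⟨rfl, h2⟩ := hMv_inj B X M i t h
          have : k = k' := Fin.ext h2
          rw [this]
    | L => exact absurd h (key w _ (by simp))
    | C => exact absurd h (key w _ (by simp))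
    | S m => exact absurd h (key w _ (by simp))
    | R m => exact absurd h (key w _ (by simp))
  | L =>
    cases q with
    | inn w => exact absurd h.symm (key w _ (by simp))
    | L => rfl
    | C => simp only [hG] at h; split_ifs at h <;> rw [H4_inj] at h <;> omega
    | S m => simp only [hG] at h; split_ifs at h <;> rw [H4_inj] at h <;> omega
    | R m => simp only [hG] at h; split_ifs at h <;> rw [H4_inj] at h <;> omega
  | C =>
    cases q with
    | inn w => exact absurd h.symm (key w _ (by simp))
    | L => simp only [hG] at h; split_ifs at h <;> rw [H4_inj] at h <;> omega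
    | C => rfl
    | S m => simp only [hG] at h; split_ifs at h <;> rw [H4_inj] at h <;> omega
    | R m =>
      have := m.2
      simp only [hG] at h; split_ifs at h <;> rw [H4_inj] at h <;> omega
  | S m =>
    cases q with
    | inn w => exact absurd h.symm (key w _ (by simp))
    | L => simp only [hG] at h; split_ifs at h <;> rw [H4_inj] at h <;> omega
    | C => simp only [hG] at h; split_ifs at h <;> rw [H4_inj] at h <;> omega
    | S m' =>
      have : m = m' := by
        apply Fin.ext
        simp only [hG] at h; split_ifs at h <;> rw [H4_inj] at h <;> omega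
      rw [this]
    | R m' => simp only [hG] at h; split_ifs at h <;> rw [H4_inj] at h <;> omega
  | R m =>
    cases q with
    | inn w => exact absurd h.symm (key w _ (by simp))
    | L => simp only [hG] at h; split_ifs at h <;> rw [H4_inj] at h <;> omega
    | C =>
      have := m.2
      simp only [hG] at h; split_ifs at h <;> rw [H4_inj] at h <;> omega
    | S m' => simp only [hG] at h; split_ifs at h <;> rw [H4_inj] at h <;> omega
    | R m' =>
      have : m = m' := by
        apply Fin.ext
        simp only [hG] at h; split_ifs at h <;> rw [H4_inj] at h <;> omega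
      rw [this]

end Pool.Agent.W_be22fd_h97
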