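import Pool.Agent.W_be22fd_h97.GridEmb
import Pool.Agent.W_be22fd_h97.GridInj
import Pool.Agent.W_be22fd_h97.GridIniFin

/-!
# The order of the system wires of the grid at the outer key states
-/

namespace Pool.Agent.W_be22fd_h97

open Pool.Agent.W_be22fd_h27 Pool.Agent.W_be22fd_h13

variable (B : Block) (X : ℕ)

/-- wires of the grid that can belong to the system -/
def IsSys : Wire (GW B X) (X * X + 1) → Prop
  | .inn (.old _ _ _) => True
  | .inn (.mv .c _) => True
  | .inn (.mv .l _) => True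
  | .inn (.mv (.Rp _) _) => False
  | .inn (.mv (.Sp _) _) => False
  | .L => True
  | .C => True
  | .S _ => False
  | .R _ => False

variable {B X}

theorem ord_top {t : B.τ} {j k : Fin (X * X)} (hjk : j ≤ k) {q : Wire (GW B X) (X * X + 1)}
    (hq : IsSys B X q) (hne : ∀ i, j ≤ i → i ≤ k → q ≠ emb B X i .C) :
    hG B X (k + 1 + 1) 0 t q < hG B X (k + 1 + 1) 0 t (emb B X j .C) := by
  have hj : (j : ℕ) ≤ k := hjk
  have hk := k.2
  have h1 : hG B X (k + 1 + 1) 0 t (emb B X j .C) = H4 (-8) j 0 (B.h B.fin .C) :=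
    hG_done .c (by omega)
  rw [h1]
  rcases q with (⟨u, o, ho⟩ | ⟨κ, i⟩) | _ | _ | m | m
  · obtain ⟨a, b, c, h2⟩ := hOld_zone B X (k + 1 + 1) 0 t u o
    show hOld B X (k + 1 + 1) 0 t u o < _
    rw [h2, H4_lt]
    left; norm_num
  · cases κ with
    | c =>
      rcases Nat.lt_or_ge (k : ℕ) i with h | h
      · have h3 : hG B X (k + 1 + 1) 0 t (.inn (.mv .c i)) = H4 (-18) (-i) 0 (B.h B.ini .C) :=
          hG_wait .c (by omega) (by omega)
        rw [h3, H4_lt]
        left; norm_num
      · have h3 : hG B X (k + 1 + 1) 0 t (.inn (.mv .c i)) = H4 (-8) i 0 (B.h B.fin .C) :=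
          hG_done .c (by omega)
        have h4 : (i : ℕ) < j := by
          by_contra hcon
          push Not at hcon
          exact hne i hcon h rfl
        rw [h3, H4_lt]
        right
        exact ⟨rfl, Or.inl (by exact_mod_cast h4)⟩
    | l =>
      rcases Nat.lt_or_ge (k : ℕ) i with h | h
      · have h3 : hG B X (k + 1 + 1) 0 t (.inn (.mv .l i)) = H4 (-14) i 0 (B.h B.ini .L) :=
          hG_wait .l (by omega) (by omega)
        rw [h3, H4_lt]
        left; norm_num
      · have h3 : hG B X (k + 1 + 1) 0 t (.inn (.mv .l i)) = H4 (-24) (-i) 0 (B.h B.fin .L) :=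
          hG_done .l (by omega)
        rw [h3, H4_lt]
        left; norm_num
    | Rp m => exact hq.elim
    | Sp m => exact hq.elim
  · simp only [hG]
    rw [if_pos (by omega), H4_lt]
    left; norm_num
  · simp only [hG]
    rw [if_pos (by omega), H4_lt]
    left; norm_num
  · exact hq.elim
  · exact hq.elim

theorem ord_bot {t : B.τ} {j k : Fin (X * X)} (hjk : j ≤ k) {q : Wire (GW B X) (X * X + 1)}
    (hq : IsSys B X q) (hne : ∀ i, j ≤ i → i ≤ k → q ≠ emb B X i .L) :
    hG B X (k + 1 + 1) 0 t (emb B X j .L) < hG B X (k + 1 + 1) 0 t q := by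
  have hj : (j : ℕ) ≤ k := hjk
  have hk := k.2
  have h1 : hG B X (k + 1 + 1) 0 t (emb B X j .L) = H4 (-24) (-j) 0 (B.h B.fin .L) :=
    hG_done .l (by omega)
  rw [h1]
  rcases q with (⟨u, o, ho⟩ | ⟨κ, i⟩) | _ | _ | m | m
  · obtain ⟨a, b, c, h2⟩ := hOld_zone B X (k + 1 + 1) 0 t u o
    show _ < hOld B X (k + 1 + 1) 0 t u o
    rw [h2, H4_lt]
    left; norm_num
  · cases κ with
    | c =>
      rcases Nat.lt_or_ge (k : ℕ) i with h | h
      · have h3 : hG B X (k + 1 + 1) 0 t (.inn (.mv .c i)) = H4 (-18) (-i) 0 (B.h B.ini .C) :=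
          hG_wait .c (by omega) (by omega)
        rw [h3, H4_lt]
        left; norm_num
      · have h3 : hG B X (k + 1 + 1) 0 t (.inn (.mv .c i)) = H4 (-8) i 0 (B.h B.fin .C) :=
          hG_done .c (by omega)
        rw [h3, H4_lt]
        left; norm_num
    | l =>
      rcases Nat.lt_or_ge (k : ℕ) i with h | h
      · have h3 : hG B X (k + 1 + 1) 0 t (.inn (.mv .l i)) = H4 (-14) i 0 (B.h B.ini .L) :=
          hG_wait .l (by omega) (by omega)
        rw [h3, H4_lt]
        left; norm_num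
      · have h3 : hG B X (k + 1 + 1) 0 t (.inn (.mv .l i)) = H4 (-24) (-i) 0 (B.h B.fin .L) :=
          hG_done .l (by omega)
        have h4 : (i : ℕ) < j := by
          by_contra hcon
          push Not at hcon
          exact hne i hcon h rfl
        rw [h3, H4_lt]
        right
        exact ⟨rfl, Or.inl (by omega)⟩
    | Rp m => exact hq.elim
    | Sp m => exact hq.elim
  · simp only [hG]
    rw [if_pos (by omega), H4_lt]
    left; norm_num
  · simp only [hG]
    rw [if_pos (by omega), H4_lt]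
    left; norm_num
  · exact hq.elim
  · exact hq.elim

/-- a waiting mover has its initial height -/
theorem wait_eq {t t' : B.τ} {k j : Fin (X * X)} (h : k ≤ j) (p : Wire B.W B.ns)
    (hp : p = .C ∨ p = .L) :
    hG B X (k + 1) 0 t (emb B X j p) = hG B X 0 0 t' (emb B X j p) := by
  have hk : (k : ℕ) ≤ j := h
  rcases hp with rfl | rfl
  · show hMv B X (k + 1) 0 t .c j = hMv B X 0 0 t' .c j
    unfold hMv
    rw [if_pos (by omega), if_pos (by omega)]
  · show hMv B X (k + 1) 0 t .l j = hMv B X 0 0 t' .l j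
    unfold hMv
    rw [if_pos (by omega), if_pos (by omega)]

theorem stay_C {t : B.τ} {k k' : Fin (X * X)} (h : k < k') :
    hG B X (k' + 1) 4 t (emb B X k' .C) < hG B X (k' + 1) 4 t (emb B X k .C) := by
  have hk : (k : ℕ) < k' := h
  rw [hG_emb]
  have h1 : hG B X (k' + 1) 4 t (emb B X k .C) = H4 (-8) k 0 (B.h B.fin .C) :=
    hG_done .c hk
  rw [h1, H4_lt]
  left; norm_num

theorem stay_L {t : B.τ} {k k' : Fin (X * X)} (h : k < k') :
    hG B X (k' + 1) 4 t (emb B X k .L) < hG B X (k' + 1) 4 t (emb B X k' .L) := by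
  have hk : (k : ℕ) < k' := h
  rw [hG_emb]
  have h1 : hG B X (k' + 1) 4 t (emb B X k .L) = H4 (-24) (-k) 0 (B.h B.fin .L) :=
    hG_done .l hk
  rw [h1, H4_lt]
  left; norm_num

theorem rk_L {k k' : Fin (X * X)} (h : k < k') :
    rkG B X (emb B X k' .L) < rkG B X (emb B X k .L) := by
  have hk : (k : ℕ) < k' := h
  simp only [emb, rkG, rk, slopeG, MK.slp]
  omega

theorem rk_C {k k' : Fin (X * X)} (h : k < k') :
    rkG B X (emb B X k .C) < rkG B X (emb B X k' .C) := by
  have hk : (k : ℕ) < k' := h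
  simp only [emb, rkG, rk, slopeG, MK.slp]
  omega

theorem rk_LC (k k' : Fin (X * X)) :
    rkG B X (emb B X k .L) < rkG B X (emb B X k' .C) := by
  have hA := B.A_nonneg
  simp only [emb, rkG, rk, slopeG, MK.slp]
  omega

end Pool.Agent.W_be22fd_h97
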