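import Pool.Agent.W_be22fd_h27.Grid
import Pool.Agent.W_be22fd_h54.Node
import Pool.Agent.W_be22fd_h97.GridOrd

/-!
# The grid step is a node over the block
-/

namespace Pool.Agent.W_be22fd_h97

open Pool.Agent.W_be22fd_h27 Pool.Agent.W_be22fd_h13 Pool.Agent.W_be22fd_h54

variable (B : Block) (X : ℕ)

/-- the state of the grid in slot `k` with local state `t` -/
@[reducible] def gridSt (k : Fin (X * X)) (t : B.τ) : Fin (X * X + 3) ×ₗ (Fin 6 ×ₗ B.τ) :=
  toLex (⟨k + 1, by omega⟩, toLex (4, t))

theorem grid_Sys {q : Wire (grid B X).W (grid B X).ns} (h : (grid B X).Sys q) :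
    IsSys B X q := by
  rcases q with (⟨u, o, ho⟩ | ⟨κ, i⟩) | _ | _ | m | m
  · trivial
  · cases κ with
    | c => trivial
    | l => trivial
    | Rp m => exact h
    | Sp m => exact h
  · trivial
  · trivial
  · exact h
  · exact h

/-- `grid B X` contains `X * X` copies of `B` -/
noncomputable def gridSlots : Slots B (grid B X) (X * X) where
  hns := rfl
  e := emb B X
  e_inj := emb_injective B X
  e_core := emb_core B X
  st := gridSt B X
  st_mono k t t' h := by
    show gridSt B X k t ≤ gridSt B X k t'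
    rw [Prod.Lex.le_iff]
    refine Or.inr ⟨rfl, ?_⟩
    rw [Prod.Lex.le_iff]
    exact Or.inr ⟨rfl, h⟩
  rk_lt_iff k p q := rkG_emb_lt B X k p q
  h_iff k t p q := hG_emb_lt B X k t p q
  key_le k := by
    show gridKey B X _ 3 ≤ gridSt B X k B.ini
    rw [Prod.Lex.le_iff]
    refine Or.inr ⟨rfl, ?_⟩
    rw [Prod.Lex.le_iff]
    left
    show (⟨((3 : Fin 4) : ℕ), _⟩ : Fin 6) < 4
    decide
  le_key k := by
    show gridSt B X k B.fin ≤ gridKey B X _ 0
    rw [Prod.Lex.le_iff]
    left
    show ((k : ℕ) + 1) < ((k : ℕ) + 1) + 1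
    omega

/-- `grid B X` is a node over `B` -/
noncomputable def gridNode : Node B (grid B X) (X * X) where
  toSlots := gridSlots B X
  sys_e k p h := by
    cases p with
    | inn w => exact h
    | L => trivial
    | C => trivial
    | S m => exact h.elim
    | R m => exact h.elim
  top k j hjk q hq hne := ord_top (t := B.ini) hjk (grid_Sys B X hq) hne
  bot k j hjk q hq hne := ord_bot (t := B.ini) hjk (grid_Sys B X hq) hne
  wait k j j' hj hj' p p' hp hp' := by
    have h1 : (grid B X).h ((grid B X).key ((gridSlots B X).lo k) 0) (emb B X j p) =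
        (grid B X).h (grid B X).ini (emb B X j p) := wait_eq hj p hp
    have h2 : (grid B X).h ((grid B X).key ((gridSlots B X).lo k) 0) (emb B X j' p') =
        (grid B X).h (grid B X).ini (emb B X j' p') := wait_eq hj' p' hp'
    show ¬ (grid B X).Sw (emb B X j p) (emb B X j' p') ((grid B X).key ((gridSlots B X).lo k) 0)
    rintro (⟨h3, h4⟩ | ⟨h3, h4⟩)
    · rw [h1, h2] at h4
      exact absurd h4 ((grid B X).h_ini _ _ h3).asymm
    · rw [h1, h2] at h4
      exact absurd h4 ((grid B X).h_ini _ _ h3).asymm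
  rk_L k k' h := rk_L h
  rk_C k k' h := rk_C h
  rk_LC k k' := rk_LC k k'
  stay_C k k' h := by
    have h1 : (grid B X).h (gridSt B X k' B.fin) (emb B X k' .C) <
        (grid B X).h (gridSt B X k' B.fin) (emb B X k .C) := stay_C h
    have h2 : (grid B X).r (emb B X k .C) < (grid B X).r (emb B X k' .C) := rk_C h
    show ¬ (grid B X).Sw (emb B X k' .C) (emb B X k .C) (gridSt B X k' B.fin)
    rw [Block.Sw_symm, Block.Sw_iff _ h2]
    exact h1.asymm
  stay_L k k' h := by
    have h1 : (grid B X).h (gridSt B X k' B.fin) (emb B X k .L) <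
        (grid B X).h (gridSt B X k' B.fin) (emb B X k' .L) := stay_L h
    have h2 : (grid B X).r (emb B X k' .L) < (grid B X).r (emb B X k .L) := rk_L h
    show ¬ (grid B X).Sw (emb B X k' .L) (emb B X k .L) (gridSt B X k' B.fin)
    rw [Block.Sw_iff _ h2]
    exact h1.asymm

end Pool.Agent.W_be22fd_h97
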