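import Pool.Agent.W_be22fd_h13.GridMovers

/-!
# The copies of the block `B` in the slots of the grid: heights
-/

namespace Pool.Agent.W_be22fd_h97

open Pool.Agent.W_be22fd_h27 Pool.Agent.W_be22fd_h13

theorem kx_bounds {X k : ℕ} (hk : k < X * X) : 0 ≤ kx X (k + 1) ∧ kx X (k + 1) < X := by
  have hX : 0 < X := by
    rcases Nat.eq_zero_or_pos X with h | h
    · subst h; simp at hk
    · exact h
  unfold kx
  rw [Nat.add_sub_cancel]
  constructor
  · positivity
  · exact_mod_cast Nat.div_lt_of_lt_mul hk

theorem ky_bounds {X k : ℕ} (hk : k < X * X) : 0 ≤ ky X (k + 1) ∧ ky X (k + 1) < X := by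
  have hX : 0 < X := by
    rcases Nat.eq_zero_or_pos X with h | h
    · subst h; simp at hk
    · exact h
  unfold ky
  rw [Nat.add_sub_cancel]
  constructor
  · positivity
  · exact_mod_cast Nat.mod_lt k hX

theorem off_mem {X k : ℕ} (hk : k < X * X) (s : ℤ) :
    ky X (k + 1) - s * kx X (k + 1) ∈ Finset.Icc (-(|s| * X)) ((|s| + 1) * X) := by
  obtain ⟨h1, h2⟩ := kx_bounds hk
  obtain ⟨h3, h4⟩ := ky_bounds hk
  have h5 : |s * kx X (k + 1)| ≤ |s| * X := by
    rw [abs_mul, abs_of_nonneg h1]
    exact mul_le_mul_of_nonneg_left h2.le (abs_nonneg s)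
  obtain ⟨h6, h7⟩ := abs_le.1 h5
  rw [Finset.mem_Icc]
  constructor
  · linarith
  · linarith

variable (B : Block) (X : ℕ)

/-- the wire of the grid which plays the wire `p` of `B` in the slot `k` -/
def emb (k : Fin (X * X)) : Wire B.W B.ns → Wire (GW B X) (X * X + 1)
  | .inn u => .inn (.old u (ky X (k + 1) - B.slope u * kx X (k + 1)) (off_mem k.2 _))
  | .L => .inn (.mv .l k)
  | .C => .inn (.mv .c k)
  | .S m => .inn (.mv (.Sp m) k)
  | .R m => .inn (.mv (.Rp m) k)

theorem emb_injective (k : Fin (X * X)) : Function.Injective (emb B X k) := by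
  intro p q h
  cases p <;> cases q <;> simp_all [emb]

theorem emb_core (k : Fin (X * X)) (p : Wire B.W B.ns) : (emb B X k p).IsCore := by
  cases p <;> trivial

theorem hG_emb (k : Fin (X * X)) (t : B.τ) (p : Wire B.W B.ns) :
    hG B X (k + 1) 4 t (emb B X k p) = H4 (-16) (ky X (k + 1)) 0 (B.h t p) := by
  have hk := k.2
  have hmv : ∀ κ : MK B.ns, hMv B X (k + 1) 4 t κ k = H4 (-16) (ky X (k + 1)) 0 (B.h t κ.wire) := by
    intro κ
    unfold hMv
    rw [if_neg (by omega), if_pos (by simp)]
  cases p with
  | inn u =>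
    show hOld B X (k + 1) 4 t u _ = _
    unfold hOld
    rw [if_neg (by omega), if_pos (by omega)]
    have h : B.slope u * kx X (k + 1) + (ky X (k + 1) - B.slope u * kx X (k + 1)) =
        ky X (k + 1) := by ring
    rw [h]
    unfold clk
    rw [if_neg (lt_irrefl _), if_neg (lt_irrefl _), if_neg (by omega), if_pos rfl]
  | L => exact hmv .l
  | C => exact hmv .c
  | S m => exact hmv (.Sp m)
  | R m => exact hmv (.Rp m)

theorem hG_emb_lt (k : Fin (X * X)) (t : B.τ) (p q : Wire B.W B.ns) :
    hG B X (k + 1) 4 t (emb B X k p) < hG B X (k + 1) 4 t (emb B X k q) ↔ B.h t p < B.h t q := by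
  rw [hG_emb, hG_emb, H4_lt]
  simp

theorem rkG_emb_lt (k : Fin (X * X)) (p q : Wire B.W B.ns) :
    rkG B X (emb B X k p) < rkG B X (emb B X k q) ↔ rk B.A B.slope p < rk B.A B.slope q := by
  have hs : ∀ u, -B.A ≤ B.slope u ∧ B.slope u ≤ B.A := fun u => abs_le.1 (B.slope_le u)
  have hA := B.A_nonneg
  have hk := k.2
  cases p with
  | inn u =>
    have := hs u
    cases q with
    | inn v =>
      have := hs v
      simp only [emb, rkG, rk, slopeG, MK.slp]
    | L => simp only [emb, rkG, rk, slopeG, MK.slp]; omega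
    | C => simp only [emb, rkG, rk, slopeG, MK.slp]; omega
    | S m => simp only [emb, rkG, rk, slopeG, MK.slp]; omega
    | R m => simp only [emb, rkG, rk, slopeG, MK.slp]; omega
  | L =>
    cases q with
    | inn v =>
      have := hs v
      simp only [emb, rkG, rk, slopeG, MK.slp]; omega
    | L => simp only [emb, rkG, rk, slopeG, MK.slp]; omega
    | C => simp only [emb, rkG, rk, slopeG, MK.slp]; omega
    | S m => simp only [emb, rkG, rk, slopeG, MK.slp]; omega
    | R m => simp only [emb, rkG, rk, slopeG, MK.slp]; omega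
  | C =>
    cases q with
    | inn v =>
      have := hs v
      simp only [emb, rkG, rk, slopeG, MK.slp]; omega
    | L => simp only [emb, rkG, rk, slopeG, MK.slp]; omega
    | C => simp only [emb, rkG, rk, slopeG, MK.slp]; omega
    | S m => simp only [emb, rkG, rk, slopeG, MK.slp]; omega
    | R m => simp only [emb, rkG, rk, slopeG, MK.slp]; omega
  | S m =>
    cases q with
    | inn v =>
      have := hs v
      simp only [emb, rkG, rk, slopeG, MK.slp]; omega
    | L => simp only [emb, rkG, rk, slopeG, MK.slp]; omega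
    | C => simp only [emb, rkG, rk, slopeG, MK.slp]; omega
    | S m => simp only [emb, rkG, rk, slopeG, MK.slp]; omega
    | R m => simp only [emb, rkG, rk, slopeG, MK.slp]; omega
  | R m =>
    cases q with
    | inn v =>
      have := hs v
      simp only [emb, rkG, rk, slopeG, MK.slp]; omega
    | L => simp only [emb, rkG, rk, slopeG, MK.slp]; omega
    | C => simp only [emb, rkG, rk, slopeG, MK.slp]; omega
    | S m => simp only [emb, rkG, rk, slopeG, MK.slp]; omega
    | R m => simp only [emb, rkG, rk, slopeG, MK.slp]; omega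

end Pool.Agent.W_be22fd_h97
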